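import Pool.Agent.Y335.FL.Surf

set_option autoImplicit false
set_option linter.unusedSectionVars false

/-!
# Small components after the deletion of a set of vertices

The class of the graphs with a set `S` of at most `k` vertices such that the components of `G - S`
have at most `l` edges.
-/

namespace Pool.Agent.R890.FL

open Finset Pool.Agent.TH676.Z Pool.Agent.Y335.FL Pool.Agent.Y335.FL.Surfx

/-- the class: `c` is constant on the components of `G - S`, and each class of `c` spans at most `l`
edges of `G - S` -/
def Cmp (k l : ℕ) {V E : Type} [Fintype V] [DecidableEq V] [Fintype E] [DecidableEq E]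
    (src dst : E → V) : Prop :=
  ∃ S : Finset V, S.card ≤ k ∧ ∃ c : V → ℕ, (∀ e ∈ ES src dst S, c (src e) = c (dst e)) ∧
    ∀ j, ((ES src dst S).filter (fun e => c (src e) = j)).card ≤ l

open ApMCx ApsMCx Cycx in
theorem cmpMC (k l : ℕ) (V E : Type) [Fintype V] [DecidableEq V] [Fintype E] [DecidableEq E] :
    MC (V := V) (E := E) (Cmp k l) := by
  classical
  refine ⟨?_, ?_⟩
  · rintro src dst e ⟨S, hS, c, h1, h2⟩ hne
    have hmem : ∀ d ∈ ES src (lp src dst {e}) S, d ∈ ES src dst S ∧ lp src dst {e} d = dst d := by
      intro d hd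
      simp only [ES, mem_filter, mem_univ, true_and] at hd ⊢
      have hde : d ≠ e := by
        rintro rfl
        apply hd.1
        simp [Pool.Agent.TH676.Z.lp]
      have hl : lp src dst {e} d = dst d := by simp [Pool.Agent.TH676.Z.lp, hde]
      rw [hl] at hd
      exact ⟨hd, hl⟩
    refine ⟨S, hS, c, ?_, ?_⟩
    · intro d hd
      obtain ⟨ha, hb⟩ := hmem d hd
      rw [hb]
      exact h1 d ha
    · intro j
      refine (card_le_card ?_).trans (h2 j)
      intro d hd
      rw [mem_filter] at hd ⊢
      exact ⟨(hmem d hd.1).1, hd.2⟩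
  · rintro src dst e ⟨S, hS, c, h1, h2⟩ hne
    by_cases hs : src e ∈ S ∨ dst e ∈ S
    · have hnot : ∀ x : V, x ∉ insert (src e) (S.erase (dst e)) → x ≠ dst e → x ∉ S := by
        intro x hx hxe hxS
        exact hx (mem_insert_of_mem (mem_erase.2 ⟨hxe, hxS⟩))
      have hmem : ∀ d ∈ ES (ctr (src e) (dst e) ∘ src) (ctr (src e) (dst e) ∘ dst)
          (insert (src e) (S.erase (dst e))),
          d ∈ ES src dst S ∧ (ctr (src e) (dst e) ∘ src) d = src d ∧
            (ctr (src e) (dst e) ∘ dst) d = dst d := by
        intro d hd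
        simp only [ES, mem_filter, mem_univ, true_and, Function.comp] at hd ⊢
        obtain ⟨ha, hb, hc⟩ := hd
        obtain ⟨b1, b2, b3⟩ := ctr_ne (src e) (dst e) (src d)
          (fun h => hb (by rw [h]; exact mem_insert_self _ _))
        obtain ⟨c1, c2, c3⟩ := ctr_ne (src e) (dst e) (dst d)
          (fun h => hc (by rw [h]; exact mem_insert_self _ _))
        rw [b3, c3] at ha
        rw [b3] at hb
        rw [c3] at hc
        exact ⟨⟨ha, hnot _ hb b2, hnot _ hc c2⟩, b3, c3⟩
      refine ⟨insert (src e) (S.erase (dst e)), (card_le S _ _ hs).trans hS, c, ?_, ?_⟩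
      · intro d hd
        obtain ⟨ha, hb, hc⟩ := hmem d hd
        rw [hb, hc]
        exact h1 d ha
      · intro j
        refine (card_le_card ?_).trans (h2 j)
        intro d hd
        rw [mem_filter] at hd ⊢
        obtain ⟨ha, hb, hc⟩ := hmem d hd.1
        refine ⟨ha, ?_⟩
        rw [← hb]
        exact hd.2
    · push Not at hs
      obtain ⟨hs1, hs2⟩ := hs
      have he : e ∈ ES src dst S := by
        simp only [ES, mem_filter, mem_univ, true_and]
        exact ⟨hne, hs1, hs2⟩
      have hcc : ∀ x, c (ctr (src e) (dst e) x) = c x := by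
        intro x
        unfold ctr
        split_ifs with hx
        · rw [hx]
          exact h1 e he
        · rfl
      have hmem : ∀ d ∈ ES (ctr (src e) (dst e) ∘ src) (ctr (src e) (dst e) ∘ dst) S,
          d ∈ ES src dst S := by
        intro d hd
        simp only [ES, mem_filter, mem_univ, true_and, Function.comp] at hd ⊢
        obtain ⟨ha, hb, hc⟩ := hd
        exact ⟨fun h => ha (by rw [h]), ctr_not S _ _ _ hs2 hb, ctr_not S _ _ _ hs2 hc⟩
      refine ⟨S, hS, c, ?_, ?_⟩
      · intro d hd
        simp only [Function.comp]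
        rw [hcc, hcc]
        exact h1 d (hmem d hd)
      · intro j
        refine (card_le_card ?_).trans (h2 j)
        intro d hd
        rw [mem_filter] at hd ⊢
        refine ⟨hmem d hd.1, ?_⟩
        rw [← hd.2]
        simp only [Function.comp]
        rw [hcc]

/-- the numbers of vertices and edges of a forest with small components -/
theorem forest (hev : St_even) {V E : Type} [Fintype V] [DecidableEq V] [Fintype E]
    [DecidableEq E] {S D : E → V} (hG : Girth (Adj S D) 12) (hP : NoPar S D) (T : Finset V)
    (c : V → ℕ) {l : ℕ} (hl : l ≤ 11) (h1 : ∀ e ∈ ES S D T, c (S e) = c (D e))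
    (h2 : ∀ j, ((ES S D T).filter (fun e => c (S e) = j)).card ≤ l) :
    ∃ q, (ES S D T).card + q ≤ (VS S D T).card ∧ (ES S D T).card ≤ l * q := by
  classical
  set J : Finset ℕ := (ES S D T).image (fun e => c (S e)) with hJ
  refine ⟨J.card, ?_, ?_⟩
  · have e1 : (ES S D T).card = ∑ j ∈ J, ((ES S D T).filter (fun e => c (S e) = j)).card :=
      card_eq_sum_card_image (fun e => c (S e)) (ES S D T)
    have e2 : ∑ j ∈ J, ((VS S D T).filter (fun v => c v = j)).card ≤ (VS S D T).card := by
      rw [← card_biUnion]
      · refine card_le_card ?_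
        intro v hv
        rw [mem_biUnion] at hv
        obtain ⟨j, _, hv⟩ := hv
        exact (mem_filter.1 hv).1
      · intro i _ j _ hij
        rw [Function.onFun, disjoint_left]
        intro v h3 h4
        exact hij ((mem_filter.1 h3).2.symm.trans (mem_filter.1 h4).2)
    have e3 : ∀ j ∈ J, ((ES S D T).filter (fun e => c (S e) = j)).card + 1 ≤
        ((VS S D T).filter (fun v => c v = j)).card := by
      intro j hj
      obtain ⟨e0, he0, hej⟩ := mem_image.1 hj
      have hN : ((VS S D T).filter (fun v => c v = j)).Nonempty :=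
        ⟨S e0, mem_filter.2 ⟨(hends T e0 he0).1, hej⟩⟩
      have h3 := dim V E S D ((ES S D T).filter (fun e => c (S e) = j)) _ hN (by
        intro e he
        rw [mem_filter] at he
        obtain ⟨he, hc⟩ := he
        obtain ⟨a, b⟩ := hends T e he
        exact ⟨mem_filter.2 ⟨a, hc⟩, mem_filter.2 ⟨b, by rw [← h1 e he]; exact hc⟩⟩)
      have h4 : Module.finrank (ZMod 2)
          (ZF S D ((ES S D T).filter (fun e => c (S e) = j))) = 0 := by
        have h5 : ZF S D ((ES S D T).filter (fun e => c (S e) = j)) = ⊥ := by
          rw [Submodule.eq_bot_iff]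
          intro x hx
          by_contra hx0
          have h6 := hev V E S D ((ES S D T).filter (fun e => c (S e) = j)) 12 hG hP (by
            intro e he
            rw [mem_filter] at he
            have := he.1
            unfold ES at this
            rw [mem_filter] at this
            exact this.2.1) x hx hx0
          have h7 : univ.filter (fun e => x e ≠ 0) ⊆ (ES S D T).filter (fun e => c (S e) = j) := by
            intro e he
            by_contra hne
            exact (mem_filter.1 he).2 (hx.1 e hne)
          have h8 := card_le_card h7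
          have h9 := h2 j
          omega
        rw [h5]
        exact finrank_bot _ _
      omega
    calc (ES S D T).card + J.card
        = ∑ j ∈ J, (((ES S D T).filter (fun e => c (S e) = j)).card + 1) := by
          rw [sum_add_distrib, ← e1, sum_const, smul_eq_mul, mul_one]
      _ ≤ ∑ j ∈ J, ((VS S D T).filter (fun v => c v = j)).card := sum_le_sum e3
      _ ≤ (VS S D T).card := e2
  · have e1 : (ES S D T).card = ∑ j ∈ J, ((ES S D T).filter (fun e => c (S e) = j)).card :=
      card_eq_sum_card_image (fun e => c (S e)) (ES S D T)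
    rw [e1]
    refine (sum_le_sum fun j _ => h2 j).trans ?_
    rw [sum_const, smul_eq_mul, mul_comm]

/-- the numerical contradiction -/
theorem num {m n t q k l : ℕ} (h1 : m + q ≤ n) (h2 : m ≤ l * q) (h3 : 3 * n ≤ 2 * m + t)
    (h4 : 63 * t ≤ k * (m + t)) (h5 : 189 ≤ m + t) (h6 : k * (2 * l + 3) < 63 * (l + 3)) :
    False := by
  have h7 : (l + 3) * m ≤ l * t := by
    have h8 : m + 3 * q ≤ t := by omega
    calc (l + 3) * m = l * m + 3 * m := by ring
      _ ≤ l * m + 3 * (l * q) := by omega
      _ = l * (m + 3 * q) := by ring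
      _ ≤ l * t := Nat.mul_le_mul_left _ h8
  have h8 : 63 * (l + 3) * t ≤ k * (2 * l + 3) * t := by
    calc 63 * (l + 3) * t = (l + 3) * (63 * t) := by ring
      _ ≤ (l + 3) * (k * (m + t)) := Nat.mul_le_mul_left _ h4
      _ = k * ((l + 3) * m + (l + 3) * t) := by ring
      _ ≤ k * (l * t + (l + 3) * t) := Nat.mul_le_mul_left _ (Nat.add_le_add_right h7 _)
      _ = k * (2 * l + 3) * t := by ring
  rcases Nat.eq_zero_or_pos t with ht | ht
  · subst ht
    have h9 : m = 0 := by
      rcases Nat.eq_zero_or_pos m with hm | hm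
      · exact hm
      · exfalso
        have : 0 < (l + 3) * m := Nat.mul_pos (by omega) hm
        omega
    omega
  · have := Nat.mul_lt_mul_of_pos_right h6 ht
    omega

/-- **5-flows**: small components after the deletion of a set of vertices -/
theorem comp (hg : St_girth12) (hev : St_even) (hE : Edge62') (V E : Type) [Fintype V]
    [DecidableEq V] [Fintype E] [DecidableEq E] (src dst : E → V) (k l : ℕ) (hl : l ≤ 11)
    (hk : k * (2 * l + 3) < 63 * (l + 3)) (hA : Cmp k l src dst) (hb : Br src dst ∅ ∅) :
    FlowOn src dst ∅ ∅ := by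
  by_contra hn
  obtain ⟨S, D, hAp, hM⟩ := crit V E (Cmp k l) (cmpMC k l V E) src dst hA hb hn
  have hT := (gi_all V E S D hM).2
  have hP := noPar V E S D hM
  have hG := hg V E S D hM
  by_cases hno : ∀ e, S e = D e
  · exact hM.nf (flow_of_loops hno)
  · push Not at hno
    obtain ⟨e0, he0⟩ := hno
    obtain ⟨T, hTk, c, h1, h2⟩ := hAp
    have hk62 : T.card ≤ 62 := by
      by_contra hcon
      push Not at hcon
      have h3 : 63 * (2 * l + 3) ≤ k * (2 * l + 3) := Nat.mul_le_mul_right _ (by omega)
      omega
    obtain ⟨h63, h6, -⟩ := common hE hG hT hP he0 T hk62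
    obtain ⟨q, hq1, hq2⟩ := forest hev hG hP T c hl h1 h2
    have e2 := degS V E S D T hT
    exact num hq1 hq2 e2 (h63.trans (Nat.mul_le_mul_right _ hTk)) h6 hk

end Pool.Agent.R890.FL
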