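import Pool.Agent.Y335.FL.Surf
import Pool.Agent.Y358.IN.Base

set_option autoImplicit false
set_option linter.unusedSectionVars false

/-!
# Graphs which can be embedded after the deletion of some edges

The class of the graphs with a set `F` of at most `k` edges such that `G - F` satisfies MacLane's
condition with defect `h`.  It is not closed under contractions of edges of `F`.
-/

namespace Pool.Agent.R890.FL

open Finset Pool.Agent.TH676.Z Pool.Agent.Y335.FL Pool.Agent.Y358.IN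

section

variable {V E : Type} [Fintype V] [DecidableEq V] [Fintype E] [DecidableEq E]

/-- flows on a graph with a contracted edge -/
theorem flow_lift {s d : E → V} {e : E} {u v : V} (hne : s e ≠ d e)
    (huv : (u = s e ∧ v = d e) ∨ (u = d e ∧ v = s e))
    (hfl : FlowOn (ctr u v ∘ s) (ctr u v ∘ d) ∅ ∅) : FlowOn s d ∅ {e} := by
  have hne' : u ≠ v := by
    rcases huv with ⟨a, b⟩ | ⟨a, b⟩
    · rw [a, b]; exact hne
    · rw [a, b]; exact hne.symm
  obtain ⟨f, hf0, _, hf2⟩ := hfl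
  have hb : ∀ x, x ≠ s e → x ≠ d e → bd s d f x = 0 := by
    intro x h1 h2
    have h3 := hf0 x
    have h4 : x ≠ u ∧ x ≠ v := by
      rcases huv with ⟨a, b⟩ | ⟨a, b⟩
      · rw [a, b]; exact ⟨h1, h2⟩
      · rw [a, b]; exact ⟨h2, h1⟩
    rw [Crit.bd_ctr s d _ _ hne', if_neg h4.2, if_neg h4.1] at h3
    exact h3
  have hb2 : bd s d f (s e) + bd s d f (d e) = 0 := by
    have h3 := hf0 u
    rw [Crit.bd_ctr s d _ _ hne', if_neg hne', if_pos rfl] at h3
    rcases huv with ⟨a, b⟩ | ⟨a, b⟩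
    · rw [a, b] at h3; exact h3
    · rw [a, b, add_comm] at h3; exact h3
  refine ⟨f + Pi.single e (bd s d f (d e)), fun v => ?_, fun x hx => absurd hx (notMem_empty x),
    fun x _ h2 => ?_⟩
  · rw [Crit.bd_add, Crit.bd_single]
    by_cases h1 : s e = v
    · have h2 : d e ≠ v := fun h => hne (h1.trans h.symm)
      rw [if_pos h1, if_neg h2, sub_zero, ← h1, hb2]
    · by_cases h2 : d e = v
      · rw [if_neg h1, if_pos h2, zero_sub, ← h2, add_neg_cancel]
      · rw [if_neg h1, if_neg h2, hb v (Ne.symm h1) (Ne.symm h2)]; simp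
  · have h3 : x ≠ e := fun h => h2 (h ▸ mem_singleton_self e)
    rw [Pi.add_apply, Pi.single_eq_of_ne h3, add_zero]
    exact hf2 x (notMem_empty x) (notMem_empty x)

/-- a smallest counterexample in an arbitrary class -/
theorem exists_small {Cl : (E → V) → (E → V) → Prop} (src dst : E → V)
    (h1 : Cl src dst) (h2 : Br src dst ∅ ∅) (h3 : ¬ FlowOn src dst ∅ ∅) :
    ∃ s d : E → V, Cl s d ∧ Br s d ∅ ∅ ∧ ¬ FlowOn s d ∅ ∅ ∧ ∀ (e : E) (u v : V), s e ≠ d e →
      ((u = s e ∧ v = d e) ∨ (u = d e ∧ v = s e)) → Cl (ctr u v ∘ s) (ctr u v ∘ d) →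
        FlowOn s d ∅ {e} := by
  classical
  have hex : ∃ m, ∃ s d : E → V, Cl s d ∧ Br s d ∅ ∅ ∧ ¬ FlowOn s d ∅ ∅ ∧
      (Crit.nl s d).card = m := ⟨_, src, dst, h1, h2, h3, rfl⟩
  obtain ⟨s, d, hs1, hs2, hs3, hs4⟩ := Nat.find_spec hex
  refine ⟨s, d, hs1, hs2, hs3, ?_⟩
  intro e u v hne huv hcl
  apply flow_lift hne huv
  have hnot : e ∉ Crit.nl (ctr u v ∘ s) (ctr u v ∘ d) := by
    rw [Crit.mem_nl, not_not]
    rcases huv with ⟨a, b⟩ | ⟨a, b⟩
    · rw [a, b]; simp [ctr]
    · rw [a, b]; simp [ctr]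
  have hsub : Crit.nl (ctr u v ∘ s) (ctr u v ∘ d) ⊆ Crit.nl s d := Crit.nl_ctr_sub _ _
  have hlt : (Crit.nl (ctr u v ∘ s) (ctr u v ∘ d)).card < (Crit.nl s d).card :=
    card_lt_card ⟨hsub, fun h => hnot (h (Crit.mem_nl.mpr hne))⟩
  by_contra h8
  rw [hs4] at hlt
  refine Nat.find_min hex hlt ⟨_, _, hcl, ?_, h8, rfl⟩
  intro Y _
  rw [Crit.crs_ctr]
  exact hs2 _ (disjoint_empty_right _)

/-- a cut with two edges one of which can be contracted -/
theorem two_cut {s d : E → V} {x : V} {e e' : E} (hee : e ≠ e') (hcrs : crs s d {x} = {e, e'})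
    (hfl : FlowOn s d ∅ {e}) : FlowOn s d ∅ ∅ := by
  obtain ⟨f, hf0, _, hf2⟩ := hfl
  have hs := Cut3.sum_cut (src := s) (dst := d) (f := f) (Y := {x}) (fun v _ => hf0 v)
  rw [hcrs, sum_pair hee] at hs
  have hfe' : f e' ≠ 0 := hf2 e' (notMem_empty _) (by simpa using hee.symm)
  have hfe : f e ≠ 0 := by
    intro h0
    rw [h0] at hs
    apply hfe'
    split_ifs at hs <;> simpa using hs
  refine ⟨f, hf0, fun e he => absurd he (notMem_empty _), fun c _ _ => ?_⟩
  by_cases hd : c = e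
  · rw [hd]; exact hfe
  · exact hf2 c (notMem_empty _) (by simpa using hd)

theorem flow_mono {s d : E → V} {C C' : Finset E} (h : C ⊆ C') (hfl : FlowOn s d ∅ C) :
    FlowOn s d ∅ C' := by
  obtain ⟨f, a, b, c⟩ := hfl
  exact ⟨f, a, b, fun e h1 h2 => c e h1 fun h3 => h2 (h h3)⟩

/-- the dimension of the cycle space after the deletion of edges -/
theorem dim_del (s d : E → V) (A F : Finset E) :
    Module.finrank (ZMod 2) (ZF s d A) ≤ Module.finrank (ZMod 2) (ZF s d (A \ F)) +
      (A ∩ F).card := by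
  classical
  let φ : ZF s d A →ₗ[ZMod 2] (↥(A ∩ F) → ZMod 2) :=
    { toFun := fun x a => x.1 a.1
      map_add' := fun x y => by
        funext a
        rfl
      map_smul' := fun c x => by
        funext a
        rfl }
  have h1 := LinearMap.finrank_range_add_finrank_ker φ
  have h2 : Module.finrank (ZMod 2) (LinearMap.range φ) ≤ (A ∩ F).card := by
    refine (Submodule.finrank_le _).trans ?_
    rw [Module.finrank_fintype_fun_eq_card, Fintype.card_coe]
  have h3 : Module.finrank (ZMod 2) (LinearMap.ker φ) ≤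
      Module.finrank (ZMod 2) (ZF s d (A \ F)) := by
    let g : LinearMap.ker φ →ₗ[ZMod 2] ZF s d (A \ F) :=
      { toFun := fun p => ⟨p.1.1, by
          refine ⟨fun e he => ?_, p.1.2.2⟩
          by_cases hA : e ∈ A
          · by_cases hF : e ∈ F
            · have := congrFun (LinearMap.mem_ker.mp p.2) ⟨e, mem_inter.2 ⟨hA, hF⟩⟩
              exact this
            · exact absurd (mem_sdiff.2 ⟨hA, hF⟩) he
          · exact p.1.2.1 e hA⟩
        map_add' := fun p q => rfl
        map_smul' := fun c p => rfl }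
    refine LinearMap.finrank_le_finrank_of_injective (f := g) ?_
    intro p q hpq
    apply Subtype.ext
    apply Subtype.ext
    exact congrArg (fun z : ZF s d (A \ F) => z.1) hpq
  omega

/-- the class -/
def EK (k h : ℕ) (s d : E → V) : Prop :=
  ∃ F : Finset E, F.card ≤ k ∧ Mac h s d (Crit.nl s d \ F)

open ApMCx ApsMCx in
/-- contraction of an edge outside `F` -/
theorem ek_con {k h : ℕ} {s d : E → V} {F : Finset E} (hF : F.card ≤ k)
    (hM : Mac h s d (Crit.nl s d \ F)) {e : E} (hne : s e ≠ d e) (he : e ∉ F) :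
    EK k h (ctr (s e) (d e) ∘ s) (ctr (s e) (d e) ∘ d) := by
  classical
  refine ⟨F, hF, ?_⟩
  set F1 : Finset E := (Crit.nl s d \ F).filter
    (fun c => c = e ∨ ¬ Jn s d c (s e) (d e)) with hF1
  have hM1 : Mac h s d F1 := sub_mac macDel _ _ _ _ _ hM (filter_subset _ _)
  have he1 : e ∈ F1 := by
    rw [hF1, mem_filter, mem_sdiff, Crit.mem_nl]
    exact ⟨⟨hne, he⟩, Or.inl rfl⟩
  have hM2 := macCon V E s d F1 h e hM1 he1 hne (by
    intro c hc hce
    rw [hF1, mem_filter] at hc
    rcases hc.2 with h' | h'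
    · exact absurd h' hce
    · exact h')
  refine sub_mac macDel _ _ _ _ _ hM2 ?_
  intro c hc
  rw [mem_sdiff] at hc
  obtain ⟨hc1, hc2⟩ := hc
  have hcn : c ∈ Crit.nl s d := Crit.nl_ctr_sub _ _ hc1
  rw [Crit.mem_nl] at hc1
  have hcu : ctr (s e) (d e) (s e) = s e := by simp [ctr]
  have hcv : ctr (s e) (d e) (d e) = s e := by simp [ctr]
  simp only [Function.comp] at hc1
  have hce : c ≠ e := by
    rintro rfl
    rw [hcu, hcv] at hc1
    exact hc1 rfl
  rw [mem_erase, hF1, mem_filter, mem_sdiff]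
  refine ⟨hce, ⟨hcn, hc2⟩, Or.inr ?_⟩
  rintro (⟨h3, h4⟩ | ⟨h3, h4⟩)
  · rw [h3, h4, hcu, hcv] at hc1
    exact hc1 rfl
  · rw [h3, h4, hcu, hcv] at hc1
    exact hc1 rfl

open ApMCx ApsMCx in
/-- contraction of an edge at a vertex all of whose edges are in `F` -/
theorem ek_iso {k h : ℕ} {s d : E → V} {F : Finset E} (hF : F.card ≤ k)
    (hM : Mac h s d (Crit.nl s d \ F)) {u v : V}
    (hv : ∀ c ∈ Crit.nl s d \ F, s c ≠ v ∧ d c ≠ v) :
    EK k h (ctr u v ∘ s) (ctr u v ∘ d) := by
  classical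
  refine ⟨F, hF, ?_⟩
  have hmem : ∀ c ∈ Crit.nl (ctr u v ∘ s) (ctr u v ∘ d) \ F, c ∈ Crit.nl s d \ F := by
    intro c hc
    rw [mem_sdiff] at hc ⊢
    exact ⟨Crit.nl_ctr_sub _ _ hc.1, hc.2⟩
  refine mac_congr _ _ _ _ _ _ (fun c hc => ?_) (sub_mac macDel _ _ _ _ _ hM hmem)
  obtain ⟨a, b⟩ := hv c (hmem c hc)
  exact ⟨by simp [ctr, a], by simp [ctr, b]⟩

/-- the smallest counterexample -/
structure SC (s d : E → V) (F : Finset E) : Prop where
  br : Br s d ∅ ∅
  nf : ¬ FlowOn s d ∅ ∅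
  con : ∀ e, s e ≠ d e → e ∉ F → FlowOn s d ∅ {e}
  iso : ∀ (e : E) (v : V), s e ≠ d e → (s e = v ∨ d e = v) →
    (∀ c ∈ Crit.nl s d \ F, s c ≠ v ∧ d c ≠ v) → FlowOn s d ∅ {e}

theorem exists_SC {k h : ℕ} (src dst : E → V) (h1 : EK k h src dst) (h2 : Br src dst ∅ ∅)
    (h3 : ¬ FlowOn src dst ∅ ∅) :
    ∃ (s d : E → V) (F : Finset E), F.card ≤ k ∧ Mac h s d (Crit.nl s d \ F) ∧ SC s d F := by
  obtain ⟨s, d, ⟨F, hF, hM⟩, hb, hn, hc⟩ := exists_small (Cl := EK k h) src dst h1 h2 h3
  refine ⟨s, d, F, hF, hM, hb, hn, ?_, ?_⟩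
  · intro e hne he
    exact hc e _ _ hne (Or.inl ⟨rfl, rfl⟩) (ek_con hF hM hne he)
  · intro e v hne hv hiso
    rcases hv with hv | hv
    · exact hc e (d e) v hne (Or.inr ⟨rfl, hv.symm⟩) (ek_iso hF hM hiso)
    · exact hc e (s e) v hne (Or.inl ⟨rfl, hv.symm⟩) (ek_iso hF hM hiso)

variable {s d : E → V} {F : Finset E}

/-- circuits with at most eleven edges are contained in `F` -/
theorem no_circF (hc : St_contract) (hM : SC s d F) (k : ℕ) (hk : k ≤ 9)
    (v : Fin (k + 2) → V) (ed : Fin (k + 2) → E) (hv : Function.Injective v)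
    (hed : Function.Injective ed) (hj : ∀ i, Jn s d (ed i) (v i) (v (i + 1)))
    (hF : ∃ i, ed i ∉ F) : False := by
  obtain ⟨i, hi⟩ := hF
  have hne : s (ed i) ≠ d (ed i) := jn_ne (GirthX.succ_ne hv i) (hj i)
  have hflow : FlowOn s d ∅ (univ.image ed) := by
    refine flow_mono ?_ (hM.con (ed i) hne hi)
    rw [singleton_subset_iff]
    exact mem_image_of_mem _ (mem_univ _)
  exact hM.nf (hc V E s d ∅ k hk v ed hv hed hj (fun i => notMem_empty _) hflow)

theorem jn_lp {e : E} {x y : V} (hxy : x ≠ y) (h : Jn s (lp s d F) e x y) :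
    e ∉ F ∧ Jn s d e x y := by
  have h1 : e ∉ F := by
    intro he
    have h2 : lp s d F e = s e := by simp [Pool.Agent.TH676.Z.lp, he]
    rcases h with ⟨a, b⟩ | ⟨a, b⟩
    · rw [h2] at b
      exact hxy (a.symm.trans b)
    · rw [h2] at b
      exact hxy (b.symm.trans a)
  refine ⟨h1, ?_⟩
  have h2 : lp s d F e = d e := by simp [Pool.Agent.TH676.Z.lp, h1]
  unfold Jn at h ⊢
  rw [h2] at h
  exact h

theorem girthF (hc : St_contract) (hM : SC s d F) : Girth (Adj s (lp s d F)) 12 := by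
  intro k hk v hv hA
  choose hne ed hj using hA
  have hj' : ∀ i, ed i ∉ F ∧ Jn s d (ed i) (v i) (v (i + 1)) := fun i => jn_lp (hne i) (hj i)
  have hinj : Function.Injective ed :=
    GirthX.ed_inj (src := s) (dst := d) hv (fun i => (hj' i).2)
  exact no_circF hc hM (k + 1) (by omega) v ed hv hinj (fun i => (hj' i).2) ⟨0, (hj' 0).1⟩

theorem noParF (hc : St_contract) (hM : SC s d F) : NoPar s (lp s d F) := by
  intro e e' x y hxy h h'
  obtain ⟨h1, h2⟩ := jn_lp hxy h
  obtain ⟨h3, h4⟩ := jn_lp hxy h'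
  by_contra hne
  refine no_circF hc hM 0 (by norm_num) ![x, y] ![e, e'] ?_ ?_ ?_ ⟨0, h1⟩
  · intro i j hij
    fin_cases i <;> fin_cases j <;> simp_all
  · intro i j hij
    fin_cases i <;> fin_cases j <;> simp_all
  · intro i
    fin_cases i
    · exact h2
    · exact h4.symm

/-- all vertices which are not isolated are on at least three proper edges -/
theorem cutF (hM : SC s d F) {x : V} {e : E} (hne : s e ≠ d e) (hx : s e = x ∨ d e = x) :
    3 ≤ (crs s d {x}).card := by
  have hmem : ∀ c, s c ≠ d c → (s c = x ∨ d c = x) → c ∈ crs s d {x} := by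
    intro c hc hx
    rw [Cut3.mem_crs, mem_singleton, mem_singleton]
    rcases hx with h | h
    · intro h2
      exact hc (h.trans (h2.1 h).symm)
    · intro h2
      exact hc ((h2.2 h).trans h.symm)
  have h1 : (crs s d {x}).card ≠ 1 := by
    have := hM.br {x} (disjoint_empty_right _)
    rwa [sdiff_empty] at this
  have h0 : 0 < (crs s d {x}).card := card_pos.2 ⟨e, hmem e hne hx⟩
  by_contra hcon
  push Not at hcon
  have h2 : (crs s d {x}).card = 2 := by omega
  obtain ⟨a, b, hab, hcrs⟩ := card_eq_two.1 h2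
  have hpr : ∀ c ∈ crs s d {x}, s c ≠ d c ∧ (s c = x ∨ d c = x) := by
    intro c hc
    rw [Cut3.mem_crs, mem_singleton, mem_singleton] at hc
    refine ⟨fun h => hc (by rw [h]), ?_⟩
    by_contra h
    push Not at h
    exact hc ⟨fun h2 => absurd h2 h.1, fun h2 => absurd h2 h.2⟩
  have ha := hpr a (by rw [hcrs]; simp)
  have hb := hpr b (by rw [hcrs]; simp)
  by_cases haF : a ∈ F
  · by_cases hbF : b ∈ F
    · apply hM.nf
      refine two_cut hab hcrs (hM.iso a x ha.1 ha.2 ?_)
      intro c hc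
      rw [mem_sdiff, Crit.mem_nl] at hc
      have h5 : c ∉ crs s d {x} := by
        rw [hcrs, mem_insert, mem_singleton]
        rintro (h | h)
        · exact hc.2 (h ▸ haF)
        · exact hc.2 (h ▸ hbF)
      refine ⟨fun h => h5 (hmem c hc.1 (Or.inl h)), fun h => h5 (hmem c hc.1 (Or.inr h))⟩
    · apply hM.nf
      refine two_cut (x := x) hab.symm ?_ (hM.con b hb.1 hbF)
      rw [hcrs, pair_comm]
  · exact hM.nf (two_cut hab hcrs (hM.con a ha.1 haF))

/-- counting degrees -/
theorem degF (hM : SC s d F) :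
    3 * (univ.filter (fun x => ∃ e, s e ≠ d e ∧ (s e = x ∨ d e = x))).card ≤
      2 * (Crit.nl s d).card := by
  classical
  set N : Finset V := univ.filter (fun x => ∃ e, s e ≠ d e ∧ (s e = x ∨ d e = x)) with hN
  have h1 : ∀ x ∈ N, 3 ≤ (crs s d {x}).card := by
    intro x hx
    obtain ⟨-, e, he, hx⟩ := mem_filter.1 hx
    exact cutF hM he hx
  have h2 : N.card * 3 ≤ ∑ x ∈ N, (crs s d {x}).card := by
    have := Finset.card_nsmul_le_sum N (fun x => (crs s d {x}).card) 3 h1
    rwa [smul_eq_mul] at this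
  have h3 : ∑ x ∈ N, (crs s d {x}).card ≤ 2 * (Crit.nl s d).card := by
    rw [← card_sigma]
    have h4 : (N.sigma fun x => crs s d {x}).card ≤ ((Crit.nl s d) ×ˢ (univ : Finset Bool)).card := by
      refine card_le_card_of_injOn (fun p => (p.2, decide (s p.2 = p.1))) ?_ ?_
      · rintro ⟨x, e⟩ h
        rw [mem_coe, mem_sigma] at h
        rw [mem_coe, mem_product]
        refine ⟨?_, mem_univ _⟩
        rw [Crit.mem_nl]
        have h5 := h.2
        rw [Cut3.mem_crs] at h5
        exact fun h6 => h5 (by rw [h6])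
      · rintro ⟨x, e⟩ h ⟨x', e'⟩ h' heq
        rw [mem_coe, mem_sigma] at h h'
        simp only [Prod.mk.injEq, decide_eq_decide] at heq
        obtain ⟨rfl, h6⟩ := heq
        have h5 := h.2
        have h5' := h'.2
        rw [Cut3.mem_crs, mem_singleton, mem_singleton] at h5 h5'
        simp only at h5 h5' h6
        have : x = x' := by
          by_cases h7 : s e = x
          · exact h7.symm.trans (h6.1 h7)
          · have h8 : ¬ s e = x' := fun h => h7 (h6.2 h)
            have h9 : d e = x := by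
              by_contra h
              exact h5 ⟨fun h' => absurd h' h7, fun h' => absurd h' h⟩
            have h10 : d e = x' := by
              by_contra h
              exact h5' ⟨fun h' => absurd h' h8, fun h' => absurd h' h⟩
            exact h9.symm.trans h10
        rw [this]
    rw [card_product, card_univ, Fintype.card_bool, mul_comm] at h4
    exact h4
  omega

/-- the numerical contradiction -/
theorem numF {m m' f n c c' r k h : ℕ} (h1 : m + 1 ≤ c + n) (h2 : 3 * n ≤ 2 * m)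
    (h3 : c ≤ c' + f) (h4 : c' ≤ r + h) (h5 : 1 ≤ r → 12 * (r + 1) ≤ 2 * m') (h6 : m = m' + f)
    (h7 : f ≤ k) (h8 : 64 ≤ c) (hk : 5 * k + 6 * h ≤ 200) : False := by
  rcases Nat.eq_zero_or_pos r with hr | hr
  · omega
  · have := h5 hr
    omega

end

open ApMCx ApsMCx in
/-- **5-flows**: graphs embeddable after the deletion of edges -/
theorem cross (hc : St_contract) (hev : St_even) (hcy : St_cyc) (V E : Type) [Fintype V]
    [DecidableEq V] [Fintype E] [DecidableEq E] (src dst : E → V) (k h : ℕ)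
    (hk : 5 * k + 6 * h ≤ 200) (hA : EK k h src dst) (hb : Br src dst ∅ ∅) :
    FlowOn src dst ∅ ∅ := by
  classical
  by_contra hn
  obtain ⟨s, d, F, hF, ⟨l, K, k1, k2, k3⟩, hM⟩ := exists_SC src dst hA hb hn
  by_cases hno : ∀ e, s e = d e
  · exact hM.nf (flow_of_loops hno)
  push Not at hno
  obtain ⟨e0, he0⟩ := hno
  have hES : ES s d ∅ = Crit.nl s d := by
    ext e
    simp [ES, Crit.mem_nl]
  have h64 : 64 ≤ Module.finrank (ZMod 2) (ZF s d (Crit.nl s d)) := by
    by_contra hcon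
    push Not at hcon
    refine hM.nf (hcy V E s d ∅ ?_ hM.br)
    rw [hES, card_empty]
    omega
  have h1 := dim V E s d (Crit.nl s d)
    (univ.filter (fun x => ∃ e, s e ≠ d e ∧ (s e = x ∨ d e = x)))
    ⟨s e0, mem_filter.2 ⟨mem_univ _, e0, he0, Or.inl rfl⟩⟩ (by
      intro e he
      rw [Crit.mem_nl] at he
      exact ⟨mem_filter.2 ⟨mem_univ _, e, he, Or.inl rfl⟩,
        mem_filter.2 ⟨mem_univ _, e, he, Or.inr rfl⟩⟩)
  have h2 := degF hM
  have h3 := dim_del s d (Crit.nl s d) F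
  have hlp : ∀ e ∈ Crit.nl s d \ F, s e = s e ∧ Pool.Agent.TH676.Z.lp s d F e = d e := by
    intro e he
    rw [mem_sdiff] at he
    exact ⟨rfl, by simp [Pool.Agent.TH676.Z.lp, he.2]⟩
  have h5 := facesG V E s d (Crit.nl s d \ F) l 12 K k1 k2 (by
    intro x hx hx0
    rw [← zf_congr s d s (Pool.Agent.TH676.Z.lp s d F) _ hlp] at hx
    refine hev V E s (lp s d F) (Crit.nl s d \ F) 12 (girthF hc hM) (noParF hc hM) ?_ x hx hx0
    intro e he
    rw [(hlp e he).2]
    exact Crit.mem_nl.1 (mem_sdiff.1 he).1)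
  have h6 : (Crit.nl s d).card = (Crit.nl s d \ F).card + (Crit.nl s d ∩ F).card :=
    (card_sdiff_add_card_inter _ _).symm
  have h7 : (Crit.nl s d ∩ F).card ≤ k := (card_le_card inter_subset_right).trans hF
  exact numF h1 h2 h3 k3 h5 h6 h7 h64 hk

end Pool.Agent.R890.FL
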